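import Pool.Agent.RF.Trans

/-!
# Right flatness of the approximable operators fails under the approximation property

All definitions used in the statement are in `Pool/Agent/RF/Stmt.lean`.
-/

namespace Pool.Agent.Results.MP_d63d79_an.NotRightFlat

/-- Over the real field and over the complex field there is a Banach space `E` with the approximation property such that
the algebra of approximable operators on `E` is not right flat, and not right universally flat. -/
theorem result (𝕜 : Type) [RCLike 𝕜] :
    ∃ (E : Type) (_ : NormedAddCommGroup E) (_ : NormedSpace 𝕜 E), CompleteSpace E ∧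
      RFlat.HasAP 𝕜 E ∧ ¬ RFlat.RightFlat 𝕜 (RFlat.ApOp 𝕜 E) ∧
      ¬ RFlat.RightUniversallyFlat 𝕜 (RFlat.ApOp 𝕜 E) :=
  RFlat.main 𝕜

end Pool.Agent.Results.MP_d63d79_an.NotRightFlat
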